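import Pool.Agent.H186.KS.Fin
import Pool.Agent.H186.KS.Small
import Pool.Agent.H186.KS.Large

/-!
# MP_fefad7_co: both ratios of Q1 tend to `1`

The games `Forces`, `offerWC`, `offerCW`, `board`, `Sat` and the threshold biases `bWC`, `bCW` are defined in
`Pool.Agent.Y117.SG.Game` (module `Pool.Graph.R_seed8.Y117.SG.Game`). `ratioWC n k` and `ratioCW n k` are
`(1/n) (n choose k) b⁻¹ / ln 2` for `b = bWC n k` and `b = bCW n k`.
-/

set_option autoImplicit false

open Filter Pool.Agent.H186.KS.Fin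

namespace Pool.Agent.Results.MP_fefad7_co.RatiosTendToOne

theorem result :
    -- (1) both ratios are within `ε` of `1` for `k ≥ k0(ε)` and all large `n`
    (∀ ε : ℝ, 0 < ε → ∃ k0 : ℕ, ∀ k ≥ k0, ∀ᶠ n : ℕ in atTop,
      |ratioWC n k - 1| ≤ ε ∧ |ratioCW n k - 1| ≤ ε) ∧
    -- (2) the iterated limits of Q1 with upper and with lower inner limits
    (Tendsto (fun k => limsup (fun n => ratioWC n k) atTop) atTop (nhds 1) ∧
      Tendsto (fun k => liminf (fun n => ratioWC n k) atTop) atTop (nhds 1) ∧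
      Tendsto (fun k => limsup (fun n => ratioCW n k) atTop) atTop (nhds 1) ∧
      Tendsto (fun k => liminf (fun n => ratioCW n k) atTop) atTop (nhds 1)) ∧
    -- (3) if the inner limits exist for all large `k`, the iterated limits of Q1 are `1`
    ((∀ L : ℕ → ℝ, (∀ᶠ k in atTop, Tendsto (fun n => ratioWC n k) atTop (nhds (L k))) →
        Tendsto L atTop (nhds 1)) ∧
      (∀ L : ℕ → ℝ, (∀ᶠ k in atTop, Tendsto (fun n => ratioCW n k) atTop (nhds (L k))) →
        Tendsto L atTop (nhds 1))) := by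
  have hw : Pool.Agent.H186.KS.S_win :=
    win Pool.Agent.H186.KS.Small.s_small (Pool.Agent.H186.KS.Large.s_large Pool.Agent.H186.KS.Pk.s_pk)
  have h1 := Pool.Agent.H186.KS.Lim.iterated ratioWC (wc_both hw)
  have h2 := Pool.Agent.H186.KS.Lim.iterated ratioCW cw_both
  refine ⟨fun ε hε => ?_, ⟨h1.1, h1.2.1, h2.1, h2.2.1⟩, h1.2.2, h2.2.2⟩
  obtain ⟨k1, hk1⟩ := wc_both hw ε hε
  obtain ⟨k2, hk2⟩ := cw_both ε hε
  refine ⟨max k1 k2, fun k hk => ?_⟩
  filter_upwards [hk1 k (le_trans (le_max_left _ _) hk), hk2 k (le_trans (le_max_right _ _) hk)]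
    with n hn1 hn2
  exact ⟨hn1, hn2⟩

end Pool.Agent.Results.MP_fefad7_co.RatiosTendToOne
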